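import Mathlib
import Pool.Agent.U581.LB.StmQ
import Pool.Agent.U170.LB.MS
import Pool.Agent.U908.LB.TCQ

set_option autoImplicit false

/-! Package MSQ of project LQ: mean square approximation of the error term of the circle problem by the
truncated Voronoi series, with a rate, uniformly in the length of the series. -/

namespace Pool.Agent.U170.LB

open MeasureTheory Filter Topology
open Pool.Agent.H383.Gauss (En F)
open Pool.Agent.H383.Gen (U)
open Pool.Agent.H383.Circ (ag ag_zero wg wg_Wt F_mono rA_card)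
open Pool.Agent.H452R2.Win (En_SandW ag_Bdw)
open Pool.Agent.R461.GC (Adm ch En_meas En_bdd)
open Pool.Agent.U581.LB (r2 cf UN Pc AdmL)

lemma SU_le : ∃ D : ℝ, 0 < D ∧ ∀ L : ℕ, SU (L ^ 2) ≤ D * (L : ℝ) ^ 2 := by
  obtain ⟨D, hD, h⟩ := ag_Bdw (3 / 4) (by norm_num)
  refine ⟨D, hD, fun L => ?_⟩
  unfold SU
  calc ∑ n ∈ Finset.Icc 1 (L ^ 2), |cf n| ≤ ∑ n ∈ Finset.Icc 1 (L ^ 2), D := by
        refine Finset.sum_le_sum fun n hn => ?_
        rw [cf_eq]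
        have := h n (Finset.mem_Icc.1 hn).1
        have e : (-(3 / 4) + 3 / 4 : ℝ) = 0 := by norm_num
        rw [e, Real.rpow_zero, mul_one] at this
        exact this
    _ = D * (L : ℝ) ^ 2 := by
        rw [Finset.sum_const, Nat.card_Icc, nsmul_eq_mul, Nat.add_sub_cancel]
        push_cast
        ring

theorem t_MSQ : Pool.Agent.U581.LB.S_MSQ := by
  intro c₁ c₂ K s hc₁ hs
  have hs1 : 1 / 3 < min s (2 / 5) := lt_min hs (by norm_num)
  obtain ⟨C₁, τ₁, T₁, hC₁, hτ₁, hmain0⟩ := Pool.Agent.U908.LB.tail_convq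
    (c₁ := c₁) (c₂ := max c₁ c₂ + 1) (K := |K|) (s := min s (2 / 5))
    ag_Bdw ag_zero wg_Wt En_SandW hc₁ (by linarith [le_max_left c₁ c₂]) (abs_nonneg K) hs1
    (min_le_right _ _)
  obtain ⟨D, hD, hSU⟩ := SU_le
  obtain ⟨τ, hτ⟩ : ∃ τ : ℝ, τ = min τ₁ (1 / 5) := ⟨_, rfl⟩
  have hτ0 : 0 < τ := by rw [hτ]; exact lt_min hτ₁ (by norm_num)
  have hττ₁ : τ ≤ τ₁ := by rw [hτ]; exact min_le_left _ _
  have hτ5 : τ ≤ 1 / 5 := by rw [hτ]; exact min_le_right _ _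
  refine ⟨3 * C₁ + 4 * D ^ 2 / c₁ ^ 2, τ, max T₁ (max 1 (2 / c₁)), by positivity, hτ0,
    fun T h L hT hh hh1 hL hLT μ hμ => ?_⟩
  have hTT₁ : T₁ ≤ T := (le_max_left _ _).trans hT
  have hT1 : 1 ≤ T := ((le_max_left _ _).trans (le_max_right _ _)).trans hT
  have hT2 : 2 / c₁ ≤ T := ((le_max_right _ _).trans (le_max_right _ _)).trans hT
  have hT0 : 0 < T := by linarith
  have hTh : h ≤ T := hh1.trans hT1
  have hL1 : (1 : ℝ) ≤ L := by exact_mod_cast hL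
  have hL0 : (0 : ℝ) < L := by linarith
  have hprob := hμ.prob
  have hadm := adm_shift hh hT1 hTh hμ
  have hLT₁ : (L : ℝ) ≤ T ^ τ₁ := hLT.trans (Real.rpow_le_rpow_of_exponent_le hT1 hττ₁)
  have hmain := hmain0 T hTT₁ L hL hLT₁ _ hadm
  have hm : Measurable fun x : ℝ => x + h / T := by fun_prop
  have hUc : Continuous fun R : ℝ => U ag (3 * Real.pi / 4) R L := by
    unfold U
    fun_prop
  obtain ⟨B, hB⟩ : ∃ B : ℝ, B = SU (L ^ 2) := ⟨_, rfl⟩
  have hB0 : 0 ≤ B := by rw [hB]; exact SU_nonneg _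
  have hBD : B ≤ D * (L : ℝ) ^ 2 := by rw [hB]; exact hSU L
  have hTc : 2 ≤ T * c₁ := (div_le_iff₀ hc₁).1 hT2
  have hTc0 : 0 < T * c₁ := by linarith
  -- the mean square at shifted radii
  have hshift : ∫ x, (En (T * x + h) - UN (L ^ 2) (T * x + h)) ^ 2 ∂μ ≤ C₁ * (L : ℝ) ^ (-τ₁) := by
    rw [integral_map hm.aemeasurable (by
      have h1 : Measurable fun x : ℝ => (En (T * x) - U ag (3 * Real.pi / 4) (T * x) L) ^ 2 := by
        have e1 : Measurable fun x : ℝ => En (T * x) := En_meas.comp (by fun_prop)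
        have e2 : Measurable fun x : ℝ => U ag (3 * Real.pi / 4) (T * x) L :=
          hUc.measurable.comp (by fun_prop)
        exact (e1.sub e2).pow_const 2
      exact h1.aestronglyMeasurable)] at hmain
    refine le_trans (le_of_eq (integral_congr_ae (Eventually.of_forall fun x => ?_))) hmain
    have e : T * (x + h / T) = T * x + h := by field_simp
    simp only [e, UN_eq]
  -- integrability
  obtain ⟨C, hC⟩ := En_bdd (T * c₁) (T * c₂ + h) (by positivity)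
  have hEm : Measurable fun x : ℝ => En (T * x + h) := En_meas.comp (by fun_prop)
  have hUm : Measurable fun x : ℝ => UN (L ^ 2) (T * x + h) :=
    (UN_cont _).measurable.comp (by fun_prop)
  have hint : Integrable (fun x => (En (T * x + h) - UN (L ^ 2) (T * x + h)) ^ 2) μ := by
    refine Integrable.of_bound ((hEm.sub hUm).pow_const 2).aestronglyMeasurable ((C + B) ^ 2) ?_
    filter_upwards [hμ.supp] with x hx
    have h1 := hC (T * x + h) (by nlinarith [hx.1]) (by nlinarith [hx.2])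
    have h2 := UN_le (L ^ 2) (T * x + h)
    rw [← hB] at h2
    rw [Real.norm_eq_abs, abs_pow, sq_abs]
    have h3 : |En (T * x + h) - UN (L ^ 2) (T * x + h)| ≤ C + B :=
      (abs_sub _ _).trans (add_le_add h1 h2)
    exact sq_le_sq' (by linarith [(abs_le.1 h3).1]) (abs_le.1 h3).2
  obtain ⟨δ, hδ⟩ : ∃ δ : ℝ, δ = 1 / (T * c₁) := ⟨_, rfl⟩
  have hδ0 : 0 ≤ δ := by rw [hδ]; positivity
  have hδ1 : δ ≤ 1 / 2 := by
    rw [hδ]
    exact one_div_le_one_div_of_le (by norm_num) hTc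
  have hbound : ∀ᵐ x ∂μ, (Pc (T * x + h) / √(T * x) - UN (L ^ 2) (T * x + h)) ^ 2 ≤
      3 * (En (T * x + h) - UN (L ^ 2) (T * x + h)) ^ 2 + 4 * δ ^ 2 * B ^ 2 := by
    filter_upwards [hμ.supp] with x hx
    have hx0 : 0 < x := lt_of_lt_of_le hc₁ hx.1
    have hTx : 0 < T * x := by positivity
    have hR : 0 < T * x + h := by linarith
    have hs0 : 0 < √(T * x) := Real.sqrt_pos.2 hTx
    have hq := sqrt_ratio hTx hh
    have hq2 : h / (T * x) ≤ δ := by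
      rw [hδ]
      exact div_le_div₀ zero_le_one hh1 hTc0 (by nlinarith [hx.1])
    obtain ⟨α, hα⟩ : ∃ α : ℝ, α = √(T * x + h) / √(T * x) - 1 := ⟨_, rfl⟩
    have hαδ : |α| ≤ δ := by rw [hα]; exact hq.trans hq2
    have hα2 : α ^ 2 ≤ δ ^ 2 := by
      rw [← sq_abs α]
      exact pow_le_pow_left₀ (abs_nonneg _) hαδ 2
    have e1 : Pc (T * x + h) / √(T * x) = (1 + α) * En (T * x + h) := by
      rw [Pc_eq hR, hα]
      ring
    rw [e1]
    obtain ⟨E, hE⟩ : ∃ E : ℝ, E = En (T * x + h) := ⟨_, rfl⟩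
    obtain ⟨V, hV⟩ : ∃ V : ℝ, V = UN (L ^ 2) (T * x + h) := ⟨_, rfl⟩
    have hVB : V ^ 2 ≤ B ^ 2 := by
      have := UN_le (L ^ 2) (T * x + h)
      rw [← hB, ← hV] at this
      rw [← sq_abs V]
      exact pow_le_pow_left₀ (abs_nonneg _) this 2
    rw [← hE, ← hV]
    have k1 : ((1 + α) * E - V) ^ 2 ≤ 2 * (E - V) ^ 2 + 2 * (α ^ 2 * E ^ 2) := by
      nlinarith [sq_nonneg ((E - V) - α * E)]
    have k2 : E ^ 2 ≤ 2 * (E - V) ^ 2 + 2 * V ^ 2 := by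
      nlinarith [sq_nonneg (E - 2 * V)]
    have k3 : α ^ 2 * E ^ 2 ≤ δ ^ 2 * (2 * (E - V) ^ 2 + 2 * B ^ 2) := by
      refine mul_le_mul hα2 (by linarith) (sq_nonneg _) (sq_nonneg _)
    have k4 : δ ^ 2 ≤ 1 / 4 := by
      have := mul_self_le_mul_self hδ0 hδ1
      rw [← sq] at this
      linarith
    have k5 : δ ^ 2 * (E - V) ^ 2 ≤ 1 / 4 * (E - V) ^ 2 := mul_le_mul_of_nonneg_right k4 (sq_nonneg _)
    have k6 : δ ^ 2 * (2 * (E - V) ^ 2 + 2 * B ^ 2) = 2 * (δ ^ 2 * (E - V) ^ 2) + (4 * δ ^ 2 * B ^ 2) / 2 := by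
      ring
    linarith
  -- the comparison of the two powers
  have hpow1 : (L : ℝ) ^ (-τ₁) ≤ (L : ℝ) ^ (-τ) :=
    Real.rpow_le_rpow_of_exponent_le hL1 (neg_le_neg hττ₁)
  have hLpow : (L : ℝ) ^ 5 ≤ T ^ 2 := by
    calc (L : ℝ) ^ 5 ≤ (T ^ τ) ^ 5 := pow_le_pow_left₀ hL0.le hLT 5
      _ = T ^ (τ * 5) := by
          rw [← Real.rpow_natCast (T ^ τ) 5, ← Real.rpow_mul hT0.le]
          norm_num
      _ ≤ T ^ (2 : ℝ) := Real.rpow_le_rpow_of_exponent_le hT1 (by linarith)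
      _ = T ^ 2 := by norm_num
  have hpow2 : (L : ℝ) ^ 4 / T ^ 2 ≤ (L : ℝ) ^ (-τ) := by
    rw [Real.rpow_neg hL0.le, div_le_iff₀ (by positivity)]
    have h1 : (L : ℝ) ^ τ ≤ L := by
      calc (L : ℝ) ^ τ ≤ (L : ℝ) ^ (1 : ℝ) := Real.rpow_le_rpow_of_exponent_le hL1 (by linarith)
        _ = L := Real.rpow_one _
    have h2 : 0 < (L : ℝ) ^ τ := by positivity
    rw [inv_mul_eq_div, le_div_iff₀ h2]
    calc (L : ℝ) ^ 4 * (L : ℝ) ^ τ ≤ (L : ℝ) ^ 4 * L := mul_le_mul_of_nonneg_left h1 (by positivity)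
      _ = (L : ℝ) ^ 5 := by ring
      _ ≤ T ^ 2 := hLpow
  have herr : 4 * δ ^ 2 * B ^ 2 ≤ 4 * D ^ 2 / c₁ ^ 2 * (L : ℝ) ^ (-τ) := by
    calc 4 * δ ^ 2 * B ^ 2 ≤ 4 * δ ^ 2 * (D * (L : ℝ) ^ 2) ^ 2 :=
          mul_le_mul_of_nonneg_left (pow_le_pow_left₀ hB0 hBD 2) (by positivity)
      _ = 4 * D ^ 2 / c₁ ^ 2 * ((L : ℝ) ^ 4 / T ^ 2) := by
          rw [hδ]
          field_simp
      _ ≤ _ := mul_le_mul_of_nonneg_left hpow2 (by positivity)
  calc ∫ x, (Pc (T * x + h) / √(T * x) - UN (L ^ 2) (T * x + h)) ^ 2 ∂μ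
      ≤ ∫ x, (3 * (En (T * x + h) - UN (L ^ 2) (T * x + h)) ^ 2 + 4 * δ ^ 2 * B ^ 2) ∂μ :=
        integral_mono_of_nonneg (Eventually.of_forall fun x => sq_nonneg _)
          ((hint.const_mul 3).add (integrable_const _)) hbound
    _ = 3 * ∫ x, (En (T * x + h) - UN (L ^ 2) (T * x + h)) ^ 2 ∂μ + 4 * δ ^ 2 * B ^ 2 := by
        rw [integral_add (hint.const_mul 3) (integrable_const _), integral_const_mul]
        simp
    _ ≤ 3 * (C₁ * (L : ℝ) ^ (-τ)) + 4 * D ^ 2 / c₁ ^ 2 * (L : ℝ) ^ (-τ) := by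
        have := hshift.trans (mul_le_mul_of_nonneg_left hpow1 hC₁.le)
        linarith
    _ = (3 * C₁ + 4 * D ^ 2 / c₁ ^ 2) * (L : ℝ) ^ (-τ) := by ring

end Pool.Agent.U170.LB
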